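import Pool.Agent.Helper91.PU.Defs

/-!
Category: the theorem of Kuratowski and Ulam (the easy half), continuous open maps, and
uniformization of relations with nonmeager sections.
-/

set_option autoImplicit false

namespace Pool.Agent.Helper91.PU

open Set Filter Topology

theorem ku_open {X Y : Type} [TopologicalSpace X] [TopologicalSpace Y]
    [SecondCountableTopology Y] {V : Set (X × Y)} (ho : IsOpen V) (hd : Dense V) :
    ∀ᶠ x in residual X, Dense {y | (x, y) ∈ V} := by
  have h : ∀ B ∈ TopologicalSpace.countableBasis Y,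
      ∀ᶠ x in residual X, ∃ y ∈ B, (x, y) ∈ V := by
    intro B hB
    have hop : IsOpen B := TopologicalSpace.isOpen_of_mem_countableBasis hB
    have hne : B.Nonempty := TopologicalSpace.nonempty_of_mem_countableBasis hB
    have he : {x | ∃ y ∈ B, (x, y) ∈ V} = Prod.fst '' (V ∩ (univ ×ˢ B)) := by
      ext x
      constructor
      · rintro ⟨y, hy, hxy⟩
        exact ⟨(x, y), ⟨hxy, ⟨mem_univ _, hy⟩⟩, rfl⟩
      · rintro ⟨⟨x', y⟩, ⟨hxy, ⟨_, hy⟩⟩, rfl⟩
        exact ⟨y, hy, hxy⟩
    have ho' : IsOpen {x | ∃ y ∈ B, (x, y) ∈ V} := by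
      rw [he]
      exact isOpenMap_fst _ (ho.inter (isOpen_univ.prod hop))
    have hd' : Dense {x | ∃ y ∈ B, (x, y) ∈ V} := by
      rw [dense_iff_inter_open]
      intro U hU hUne
      obtain ⟨x, hx⟩ := hUne
      obtain ⟨y, hy⟩ := hne
      obtain ⟨⟨x', y'⟩, hp, hpV⟩ := hd.inter_open_nonempty (U ×ˢ B) (hU.prod hop) ⟨(x, y), hx, hy⟩
      exact ⟨x', hp.1, y', hp.2, hpV⟩
    exact residual_of_dense_open ho' hd'
  have h2 : ∀ᶠ x in residual X, ∀ B (_ : B ∈ TopologicalSpace.countableBasis Y),
      ∃ y ∈ B, (x, y) ∈ V :=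
    (eventually_countable_ball (TopologicalSpace.countable_countableBasis Y)).2 h
  filter_upwards [h2] with x hx
  rw [dense_iff_inter_open]
  intro U hU hUne
  obtain ⟨y, hy⟩ := hUne
  obtain ⟨B, hB, hyB, hBU⟩ :=
    (TopologicalSpace.isBasis_countableBasis Y).exists_subset_of_mem_open hy hU
  obtain ⟨y', hy', hV⟩ := hx B hB
  exact ⟨y', hBU hy', hV⟩

/-- the theorem of Kuratowski and Ulam, easy half -/
theorem ku {X Y : Type} [TopologicalSpace X] [TopologicalSpace Y]
    [SecondCountableTopology Y] {D : Set (X × Y)} (hD : D ∈ residual (X × Y)) :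
    ∀ᶠ x in residual X, {y | (x, y) ∈ D} ∈ residual Y := by
  obtain ⟨S, ho, hd, hc, hS⟩ := mem_residual_iff.1 hD
  have h : ∀ᶠ x in residual X, ∀ t (_ : t ∈ S), Dense {y | (x, y) ∈ t} :=
    (eventually_countable_ball hc).2 fun t ht => ku_open (ho t ht) (hd t ht)
  filter_upwards [h] with x hx
  have h2 : (⋂ t ∈ S, {y | (x, y) ∈ t}) ∈ residual Y := by
    rw [countable_bInter_mem hc]
    intro t ht
    refine residual_of_dense_open ?_ (hx t ht)
    exact (ho t ht).preimage (Continuous.prodMk_right x)
  refine mem_of_superset h2 ?_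
  intro y hy
  apply hS
  intro t ht
  exact mem_iInter₂.1 hy t ht

/-- the same with the two factors exchanged -/
theorem ku' {X Y : Type} [TopologicalSpace X] [TopologicalSpace Y]
    [SecondCountableTopology X] {D : Set (X × Y)} (hD : D ∈ residual (X × Y)) :
    ∀ᶠ y in residual Y, {x | (x, y) ∈ D} ∈ residual X := by
  have h : Prod.swap ⁻¹' D ∈ residual (Y × X) :=
    tendsto_residual_of_isOpenMap continuous_swap (Homeomorph.prodComm Y X).isOpenMap hD
  exact ku h

/-- a comeager set meets comeager many fibres of a continuous open surjection -/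
theorem open_fibres {X Z : Type} [TopologicalSpace X] [PolishSpace X] [TopologicalSpace Z]
    [T1Space Z] {f : X → Z} (hf : Continuous f) (ho : IsOpenMap f) (hs : Function.Surjective f)
    {G : Set X} (hG : G ∈ residual X) : ∀ᶠ z in residual Z, ∃ x ∈ G, f x = z := by
  obtain ⟨S, hSo, hSd, hSc, hS⟩ := mem_residual_iff.1 hG
  have h : ∀ᶠ z in residual Z, ∀ t (_ : t ∈ S), ∀ B (_ : B ∈ TopologicalSpace.countableBasis X),
      z ∈ f '' B → z ∈ f '' (B ∩ t) := by
    rw [eventually_countable_ball hSc]
    intro t ht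
    rw [eventually_countable_ball (TopologicalSpace.countable_countableBasis X)]
    intro B hB
    have hop : IsOpen B := TopologicalSpace.isOpen_of_mem_countableBasis hB
    have h1 : IsOpen ((closure (f '' B))ᶜ ∪ f '' (B ∩ t)) :=
      isClosed_closure.isOpen_compl.union (ho _ (hop.inter (hSo t ht)))
    have h2 : Dense ((closure (f '' B))ᶜ ∪ f '' (B ∩ t)) := by
      intro z
      by_cases hz : z ∈ closure (f '' B)
      · refine closure_mono subset_union_right ?_
        have h3 : f '' B ⊆ closure (f '' (B ∩ t)) := by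
          rintro _ ⟨x, hx, rfl⟩
          have h4 : x ∈ closure (B ∩ t) := (hSd t ht).open_subset_closure_inter hop hx
          exact image_closure_subset_closure_image hf ⟨x, h4, rfl⟩
        have h5 := closure_mono h3 hz
        rwa [closure_closure] at h5
      · exact subset_closure (Or.inl hz)
    filter_upwards [residual_of_dense_open h1 h2] with z hz hzB
    rcases hz with hz | hz
    · exact absurd (subset_closure hzB) hz
    · exact hz
  filter_upwards [h] with z hz
  have hcl : IsClosed (f ⁻¹' {z}) := isClosed_singleton.preimage hf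
  have hP : PolishSpace (f ⁻¹' {z}) := hcl.polishSpace
  obtain ⟨x₀, hx₀⟩ := hs z
  have hne : Nonempty (f ⁻¹' {z}) := ⟨⟨x₀, hx₀⟩⟩
  have hd : Dense (⋂ t ∈ S, ((↑) ⁻¹' t : Set (f ⁻¹' {z}))) := by
    apply dense_biInter_of_isOpen
    · intro t ht
      exact (hSo t ht).preimage continuous_subtype_val
    · exact hSc
    · intro t ht
      rw [dense_iff_inter_open]
      rintro U hU ⟨⟨x, hx⟩, hxU⟩
      obtain ⟨V, hV, rfl⟩ := isOpen_induced_iff.1 hU
      obtain ⟨B, hB, hxB, hBV⟩ :=
        (TopologicalSpace.isBasis_countableBasis X).exists_subset_of_mem_open hxU hV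
      obtain ⟨w, ⟨hwB, hwt⟩, hwz⟩ := hz t ht B hB ⟨x, hxB, hx⟩
      exact ⟨⟨w, hwz⟩, hBV hwB, hwt⟩
  obtain ⟨⟨x, hx⟩, hxS⟩ := hd.nonempty
  refine ⟨x, hS ?_, hx⟩
  intro t ht
  exact mem_iInter₂.1 hxS t ht

theorem measurable_sInf_nat {α : Type} [MeasurableSpace α] {B : ℕ → Set α}
    (hB : ∀ j, MeasurableSet (B j)) : Measurable fun x => sInf {j | x ∈ B j} := by
  apply measurable_to_countable'
  intro m
  have h : (fun x => sInf {j | x ∈ B j}) ⁻¹' {m} =
      (B m ∩ ⋂ j ∈ {j : ℕ | j < m}, (B j)ᶜ) ∪ (if m = 0 then ⋂ j, (B j)ᶜ else ∅) := by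
    ext x
    simp only [mem_preimage, mem_singleton_iff, mem_union, mem_inter_iff, mem_iInter, mem_compl_iff,
      mem_ofPred_eq]
    constructor
    · intro hx
      by_cases hne : ({j | x ∈ B j} : Set ℕ).Nonempty
      · left
        refine ⟨?_, fun j hj => ?_⟩
        · have := Nat.sInf_mem hne
          rwa [hx] at this
        · have : j < sInf {j | x ∈ B j} := by rw [hx]; exact hj
          exact Nat.notMem_of_lt_sInf this
      · right
        rw [not_nonempty_iff_eq_empty] at hne
        have h0 : m = 0 := by rw [← hx, hne, Nat.sInf_empty]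
        rw [if_pos h0]
        simp only [mem_iInter, mem_compl_iff]
        intro j hj
        have : j ∈ ({j | x ∈ B j} : Set ℕ) := hj
        rw [hne] at this
        exact this
    · rintro (⟨h1, h2⟩ | h1)
      · apply le_antisymm
        · exact Nat.sInf_le h1
        · by_contra hlt
          push Not at hlt
          have hm : sInf {j | x ∈ B j} ∈ {j | x ∈ B j} := Nat.sInf_mem ⟨m, h1⟩
          exact h2 _ hlt hm
      · by_cases h0 : m = 0
        · rw [if_pos h0] at h1
          simp only [mem_iInter, mem_compl_iff] at h1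
          have : ({j | x ∈ B j} : Set ℕ) = ∅ := by
            rw [eq_empty_iff_forall_notMem]
            exact h1
          rw [this, Nat.sInf_empty, h0]
        · rw [if_neg h0] at h1
          exact absurd h1 (notMem_empty _)
  rw [h]
  refine MeasurableSet.union ((hB m).inter ?_) ?_
  · exact MeasurableSet.biInter (to_countable _) fun j _ => (hB j).compl
  · split_ifs
    · exact MeasurableSet.iInter fun j => (hB j).compl
    · exact MeasurableSet.empty

/-- a relation with the Baire property has a Borel selector for its nonmeager sections -/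
theorem selector_nonmeager {R : Set (Bs × Bs)} (hR : BaireMeasurableSet R) :
    ∃ g : Bs → Bs, Measurable g ∧
      ∀ᶠ x in residual Bs, ¬ IsMeagre (sec R x) → (x, g x) ∈ R := by
  obtain ⟨U, hU, hRU⟩ := hR.residualEq_isOpen
  have hE : {p : Bs × Bs | p ∈ R ↔ p ∈ U} ∈ residual (Bs × Bs) := by
    filter_upwards [hRU] with p hp
    exact iff_of_eq hp
  have h1 := ku hE
  have h2 := ku' hE
  have hd : Dense {y : Bs | {x | (x, y) ∈ {p : Bs × Bs | p ∈ R ↔ p ∈ U}} ∈ residual Bs} :=
    dense_of_mem_residual h2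
  obtain ⟨t, ht, htc, htd⟩ := hd.exists_countable_dense_subset
  have htne : t.Nonempty := htd.nonempty
  obtain ⟨y, rfl⟩ := htc.exists_eq_range htne
  refine ⟨fun x => y (sInf {j | x ∈ {x | (x, y j) ∈ U}}), ?_, ?_⟩
  · refine (measurable_from_top (f := y)).comp (measurable_sInf_nat fun j => ?_)
    exact (hU.preimage (Continuous.prodMk_left (y j))).measurableSet
  · have h3 : ∀ᶠ x in residual Bs, ∀ j, (x, y j) ∈ R ↔ (x, y j) ∈ U := by
      rw [eventually_countable_forall]
      intro j
      exact ht ⟨j, rfl⟩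
    filter_upwards [h1, h3] with x hx1 hx3 hnm
    have hne : ({z | (x, z) ∈ U} : Set Bs).Nonempty := by
      by_contra hem
      rw [not_nonempty_iff_eq_empty] at hem
      apply hnm
      have : (sec R x)ᶜ ∈ residual Bs := by
        filter_upwards [hx1] with z hz hzR
        have hz' : (x, z) ∈ U := hz.1 hzR
        have : z ∈ ({z | (x, z) ∈ U} : Set Bs) := hz'
        rw [hem] at this
        exact this
      exact this
    have hopen : IsOpen ({z | (x, z) ∈ U} : Set Bs) := hU.preimage (Continuous.prodMk_right x)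
    obtain ⟨_, hzU, ⟨j, rfl⟩⟩ := htd.inter_open_nonempty _ hopen hne
    have hmem : sInf {j | x ∈ {x | (x, y j) ∈ U}} ∈ {j | x ∈ {x | (x, y j) ∈ U}} :=
      Nat.sInf_mem ⟨j, hzU⟩
    exact (hx3 _).2 hmem

end Pool.Agent.Helper91.PU
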