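import Pool.Agent.Helper91.PU.Defs

/-!
Closure properties of the class of projective sets.
-/

set_option autoImplicit false

namespace Pool.Agent.Helper91.PU

open Set Filter Topology

theorem Proj.preimage {Y : Type} [tY : TopologicalSpace Y] {A : Set Y} (h : Proj Y A) :
    SecondCountableTopology Y → ∀ (Z : Type) [TopologicalSpace Z] [SecondCountableTopology Z]
      (f : Z → Y), @Measurable Z Y (_root_.borel Z) (_root_.borel Y) f → Proj Z (f ⁻¹' A) := by
  induction h with
  | borel h =>
    intro _ Z _ _ f hf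
    exact Proj.borel (hf h)
  | compl _ ih =>
    intro hY Z _ _ f hf
    exact (ih hY Z f hf).compl
  | @proj Y tY A h ih =>
    intro hY Z _ _ f hf
    have h1 : f ⁻¹' (Prod.fst '' A) = Prod.fst '' ((fun p : Z × Bs => (f p.1, p.2)) ⁻¹' A) := by
      ext z
      constructor
      · rintro ⟨⟨y, w⟩, hyw, h2⟩
        refine ⟨(z, w), ?_, rfl⟩
        have h3 : y = f z := h2
        subst h3
        exact hyw
      · rintro ⟨⟨z', w⟩, hzw, h2⟩
        have h3 : z' = z := h2
        subst h3
        exact ⟨(f z', w), hzw, rfl⟩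
    rw [h1]
    refine Proj.proj (ih inferInstance (Z × Bs) _ ?_)
    letI : MeasurableSpace Z := _root_.borel Z
    haveI : BorelSpace Z := ⟨rfl⟩
    letI : MeasurableSpace Y := _root_.borel Y
    haveI : BorelSpace Y := ⟨rfl⟩
    have h2 : _root_.borel (Z × Bs) = (inferInstance : MeasurableSpace (Z × Bs)) :=
      (BorelSpace.measurable_eq (α := Z × Bs)).symm
    have h3 : _root_.borel (Y × Bs) = (inferInstance : MeasurableSpace (Y × Bs)) :=
      (BorelSpace.measurable_eq (α := Y × Bs)).symm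
    rw [h2, h3]
    have hf' : Measurable f := hf
    exact (hf'.comp measurable_fst).prodMk measurable_snd

theorem Proj.borel_inter_union {Y : Type} [tY : TopologicalSpace Y] {B : Set Y} (h : Proj Y B) :
    SecondCountableTopology Y → ∀ A : Set Y, @MeasurableSet Y (_root_.borel Y) A →
      Proj Y (A ∩ B) ∧ Proj Y (A ∪ B) := by
  induction h with
  | borel h =>
    intro _ A hA
    exact ⟨Proj.borel (hA.inter h), Proj.borel (hA.union h)⟩
  | @compl Y tY B _ ih =>
    intro hY A hA
    obtain ⟨h1, h2⟩ := ih hY Aᶜ hA.compl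
    have e1 : A ∩ Bᶜ = (Aᶜ ∪ B)ᶜ := by rw [compl_union, compl_compl]
    have e2 : A ∪ Bᶜ = (Aᶜ ∩ B)ᶜ := by rw [compl_inter, compl_compl]
    rw [e1, e2]
    exact ⟨h2.compl, h1.compl⟩
  | @proj Y tY C _ ih =>
    intro hY A hA
    have hm : @MeasurableSet (Y × Bs) (_root_.borel (Y × Bs)) (Prod.fst ⁻¹' A) := by
      letI : MeasurableSpace Y := _root_.borel Y
      haveI : BorelSpace Y := ⟨rfl⟩
      have h2 : _root_.borel (Y × Bs) = (inferInstance : MeasurableSpace (Y × Bs)) :=
        (BorelSpace.measurable_eq (α := Y × Bs)).symm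
      rw [h2]
      exact measurable_fst hA
    obtain ⟨h1, h2⟩ := ih inferInstance (Prod.fst ⁻¹' A) hm
    have e1 : A ∩ Prod.fst '' C = Prod.fst '' (Prod.fst ⁻¹' A ∩ C) := by
      rw [inter_comm, inter_comm (Prod.fst ⁻¹' A), image_inter_preimage]
    have e2 : A ∪ Prod.fst '' C = Prod.fst '' (Prod.fst ⁻¹' A ∪ C) := by
      rw [image_union, image_preimage_eq]
      exact Prod.fst_surjective
    rw [e1, e2]
    exact ⟨h1.proj, h2.proj⟩

theorem Proj.inter_union {Y : Type} [tY : TopologicalSpace Y] {A : Set Y} (h : Proj Y A) :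
    SecondCountableTopology Y → ∀ B : Set Y, Proj Y B → Proj Y (A ∩ B) ∧ Proj Y (A ∪ B) := by
  induction h with
  | borel h =>
    intro hY B hB
    exact hB.borel_inter_union hY _ h
  | @compl Y tY A _ ih =>
    intro hY B hB
    obtain ⟨h1, h2⟩ := ih hY Bᶜ hB.compl
    have e1 : Aᶜ ∩ B = (A ∪ Bᶜ)ᶜ := by rw [compl_union, compl_compl]
    have e2 : Aᶜ ∪ B = (A ∩ Bᶜ)ᶜ := by rw [compl_inter, compl_compl]
    rw [e1, e2]
    exact ⟨h2.compl, h1.compl⟩
  | @proj Y tY C _ ih =>
    intro hY B hB
    have hm : Proj (Y × Bs) (Prod.fst ⁻¹' B) := by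
      refine hB.preimage hY (Y × Bs) Prod.fst ?_
      letI : MeasurableSpace Y := _root_.borel Y
      haveI : BorelSpace Y := ⟨rfl⟩
      have h2 : _root_.borel (Y × Bs) = (inferInstance : MeasurableSpace (Y × Bs)) :=
        (BorelSpace.measurable_eq (α := Y × Bs)).symm
      rw [h2]
      exact measurable_fst
    obtain ⟨h1, h2⟩ := ih inferInstance (Prod.fst ⁻¹' B) hm
    have e1 : Prod.fst '' C ∩ B = Prod.fst '' (C ∩ Prod.fst ⁻¹' B) := by
      rw [image_inter_preimage]
    have e2 : Prod.fst '' C ∪ B = Prod.fst '' (C ∪ Prod.fst ⁻¹' B) := by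
      rw [image_union, image_preimage_eq _ Prod.fst_surjective]
    rw [e1, e2]
    exact ⟨h1.proj, h2.proj⟩

theorem Proj.inter {Y : Type} [TopologicalSpace Y] [hY : SecondCountableTopology Y] {A B : Set Y}
    (hA : Proj Y A) (hB : Proj Y B) : Proj Y (A ∩ B) := (hA.inter_union hY B hB).1

theorem Proj.union {Y : Type} [TopologicalSpace Y] [hY : SecondCountableTopology Y] {A B : Set Y}
    (hA : Proj Y A) (hB : Proj Y B) : Proj Y (A ∪ B) := (hA.inter_union hY B hB).2

theorem Proj.preimage' {Y Z : Type} [TopologicalSpace Y] [TopologicalSpace Z]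
    [SecondCountableTopology Y] [SecondCountableTopology Z] [MeasurableSpace Y] [BorelSpace Y]
    [MeasurableSpace Z] [BorelSpace Z] {A : Set Y} (h : Proj Y A) {f : Z → Y}
    (hf : Measurable f) : Proj Z (f ⁻¹' A) := by
  refine h.preimage inferInstance Z f ?_
  rw [← BorelSpace.measurable_eq (α := Z), ← BorelSpace.measurable_eq (α := Y)]
  exact hf

theorem Proj.of_measurable {Y : Type} [TopologicalSpace Y] [MeasurableSpace Y] [BorelSpace Y]
    {A : Set Y} (h : MeasurableSet A) : Proj Y A := by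
  refine Proj.borel ?_
  rw [← BorelSpace.measurable_eq (α := Y)]
  exact h

end Pool.Agent.Helper91.PU
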