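import Mathlib

/-!
Projective sets, the Baire property and uniformization up to meager sets: definitions.
-/

set_option autoImplicit false

namespace Pool.Agent.Helper91.PU

open Set Filter Topology

/-- the Baire space -/
abbrev Bs : Type := ℕ → ℕ

/-- Projective sets: the least class of sets (in topological spaces) which contains the Borel sets
and is closed under complements and under projections along the Baire space. -/
inductive Proj : (Y : Type) → [TopologicalSpace Y] → Set Y → Prop
  | borel {Y : Type} [TopologicalSpace Y] {A : Set Y} (h : @MeasurableSet Y (borel Y) A) : Proj Y A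
  | compl {Y : Type} [TopologicalSpace Y] {A : Set Y} (h : Proj Y A) : Proj Y Aᶜ
  | proj {Y : Type} [TopologicalSpace Y] {A : Set (Y × Bs)} (h : Proj (Y × Bs) A) :
      Proj Y (Prod.fst '' A)

/-- the section of `R` over `x` -/
def sec (R : Set (Bs × Bs)) (x : Bs) : Set Bs := {y | (x, y) ∈ R}

/-- `S` is not meager in its closure -/
def Fat (S : Set Bs) : Prop := ¬ IsMeagre ((↑) ⁻¹' S : Set (closure S))

/-- every projective subset of the Baire space has the Baire property -/
def PB : Prop := ∀ A : Set Bs, Proj Bs A → BaireMeasurableSet A

end Pool.Agent.Helper91.PU
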