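import Pool.Agent.Helper91.PU.Unif

/-!
The equivalence and the characterization of the uniformizable relations.
-/

set_option autoImplicit false

namespace Pool.Agent.Helper91.PU

open Set Filter Topology PiNat

/-- uniformization up to meager sets for sections in the class `C`: for every sequence of projective
relations there is a Borel function `f` such that, for comeager many `x`, if the section of at least
one of the relations over `x` is in `C` then `(x, f x)` is in the union of the relations -/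
def Unif (C : Set Bs → Prop) : Prop :=
  ∀ R : ℕ → Set (Bs × Bs), (∀ n, Proj (Bs × Bs) (R n)) → ∃ f : Bs → Bs, Measurable f ∧
    ∀ᶠ x in residual Bs, (∃ n, C (sec (R n) x)) → (x, f x) ∈ ⋃ n, R n

theorem Unif.mono {C C' : Set Bs → Prop} (h : ∀ S, C S → C' S) (hU : Unif C') : Unif C := by
  intro R hR
  obtain ⟨f, hf, hfR⟩ := hU R hR
  refine ⟨f, hf, ?_⟩
  filter_upwards [hfR] with x hx
  rintro ⟨n, hn⟩
  exact hx ⟨n, h _ hn⟩

theorem unif_fat (h : PB) : Unif Fat := fun _ hR => unif_seq h hR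

/-- the two clopen sets -/
def TwoSets (S : Set Bs) : Prop := S = {y | y 0 = 0} ∨ S = {y | y 0 = 1}

theorem twoSets_clopen {S : Set Bs} (h : TwoSets S) : IsClopen S ∧ S.Nonempty := by
  have hc : Continuous fun y : Bs => y 0 := continuous_apply 0
  rcases h with rfl | rfl
  · exact ⟨(isClopen_discrete ({0} : Set ℕ)).preimage hc, ⟨fun _ => 0, rfl⟩⟩
  · exact ⟨(isClopen_discrete ({1} : Set ℕ)).preimage hc, ⟨fun _ => 1, rfl⟩⟩

theorem nonmeager_of_open {X : Type} [TopologicalSpace X] [BaireSpace X] {S : Set X}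
    (h : IsOpen S) (hne : S.Nonempty) : ¬ IsMeagre S := by
  intro hm
  have h1 : Dense Sᶜ := dense_of_mem_residual hm
  obtain ⟨z, hz, hz'⟩ := h1.inter_open_nonempty S h hne
  exact hz' hz

/-- sets with an isolated point -/
def Iso (S : Set Bs) : Prop := ∃ y, ∃ U : Set Bs, IsOpen U ∧ S ∩ U = {y}

theorem fat_of_iso {S : Set Bs} (h : Iso S) : Fat S := by
  obtain ⟨y, U, hU, hSU⟩ := h
  intro hm
  have : PolishSpace (closure S) := isClosed_closure.polishSpace
  have hy : y ∈ S ∩ U := by rw [hSU]; rfl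
  have h1 : ((↑) ⁻¹' U : Set (closure S)) ⊆ ((↑) ⁻¹' S : Set (closure S)) := by
    rintro ⟨z, hz⟩ hzU
    have hzU' : z ∈ U := hzU
    by_contra hzS
    have hzS' : z ∉ S := hzS
    have hne : z ≠ y := by
      rintro rfl
      exact hzS' hy.1
    obtain ⟨w, ⟨hwU, hwy⟩, hwS⟩ := mem_closure_iff.1 hz (U ∩ {y}ᶜ)
      (hU.inter isOpen_compl_singleton) ⟨hzU', hne⟩
    have h2 : w ∈ S ∩ U := ⟨hwS, hwU⟩
    rw [hSU] at h2
    exact hwy h2
  refine nonmeager_of_open (hU.preimage continuous_subtype_val)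
    ⟨⟨y, subset_closure hy.1⟩, hy.2⟩ (hm.mono h1)

theorem pb_of_two (h : Unif TwoSets) : PB := by
  intro A hA
  have hc0 : MeasurableSet {p : Bs × Bs | p.2 0 = 0} := by
    have h1 : Measurable fun p : Bs × Bs => p.2 0 := (measurable_pi_apply 0).comp measurable_snd
    exact h1 (measurableSet_singleton 0)
  have hc1 : MeasurableSet {p : Bs × Bs | p.2 0 = 1} := by
    have h1 : Measurable fun p : Bs × Bs => p.2 0 := (measurable_pi_apply 0).comp measurable_snd
    exact h1 (measurableSet_singleton 1)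
  have hA1 : Proj (Bs × Bs) (Prod.fst ⁻¹' A) := hA.preimage' measurable_fst
  set R : Set (Bs × Bs) := (Prod.fst ⁻¹' A ∩ {p | p.2 0 = 0}) ∪ ((Prod.fst ⁻¹' A)ᶜ ∩ {p | p.2 0 = 1})
    with hRdef
  have hR : Proj (Bs × Bs) R :=
    (hA1.inter (Proj.of_measurable hc0)).union (hA1.compl.inter (Proj.of_measurable hc1))
  obtain ⟨f, hf, hfR⟩ := h (fun _ => R) fun _ => hR
  have hsec : ∀ x, TwoSets (sec R x) := by
    intro x
    by_cases hx : x ∈ A
    · left
      ext y
      show ((x ∈ A ∧ y 0 = 0) ∨ (x ∉ A ∧ y 0 = 1)) ↔ y 0 = 0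
      tauto
    · right
      ext y
      show ((x ∈ A ∧ y 0 = 0) ∨ (x ∉ A ∧ y 0 = 1)) ↔ y 0 = 1
      tauto
  have hB : MeasurableSet {x | f x 0 = 0} := by
    have h1 : Measurable fun x => f x 0 := (measurable_pi_apply 0).comp hf
    exact h1 (measurableSet_singleton 0)
  refine hB.baireMeasurableSet.congr ?_
  filter_upwards [hfR] with x hx
  have h1 := hx ⟨0, hsec x⟩
  obtain ⟨n, h2⟩ := mem_iUnion.1 h1
  have h3 : (x ∈ A ∧ f x 0 = 0) ∨ (x ∉ A ∧ f x 0 = 1) := h2
  apply propext
  show f x 0 = 0 ↔ x ∈ A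
  rcases h3 with ⟨h3, h4⟩ | ⟨h3, h4⟩
  · exact ⟨fun _ => h3, fun _ => h4⟩
  · constructor
    · intro h5
      omega
    · intro h5
      exact absurd h5 h3

theorem pb_of_single (h : Unif fun S => ∃ y, S = {y}) : PB := by
  intro A hA
  have hc : ∀ z : Bs, MeasurableSet {p : Bs × Bs | p.2 = z} := fun z =>
    measurableSet_eq_fun measurable_snd measurable_const
  have hA1 : Proj (Bs × Bs) (Prod.fst ⁻¹' A) := hA.preimage' measurable_fst
  set a : Bs := fun _ => 0 with ha
  set b : Bs := fun _ => 1 with hb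
  have hab : a ≠ b := by
    intro he
    have := congrFun he 0
    simp [ha, hb] at this
  set R : Set (Bs × Bs) := (Prod.fst ⁻¹' A ∩ {p | p.2 = a}) ∪ ((Prod.fst ⁻¹' A)ᶜ ∩ {p | p.2 = b})
    with hRdef
  have hR : Proj (Bs × Bs) R :=
    (hA1.inter (Proj.of_measurable (hc a))).union (hA1.compl.inter (Proj.of_measurable (hc b)))
  obtain ⟨f, hf, hfR⟩ := h (fun _ => R) fun _ => hR
  have hsec : ∀ x, ∃ y, sec R x = {y} := by
    intro x
    by_cases hx : x ∈ A
    · refine ⟨a, ?_⟩
      ext y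
      show ((x ∈ A ∧ y = a) ∨ (x ∉ A ∧ y = b)) ↔ y = a
      tauto
    · refine ⟨b, ?_⟩
      ext y
      show ((x ∈ A ∧ y = a) ∨ (x ∉ A ∧ y = b)) ↔ y = b
      tauto
  have hB : MeasurableSet {x | f x = a} := measurableSet_eq_fun hf measurable_const
  refine hB.baireMeasurableSet.congr ?_
  filter_upwards [hfR] with x hx
  have h1 := hx ⟨0, hsec x⟩
  obtain ⟨n, h2⟩ := mem_iUnion.1 h1
  have h3 : (x ∈ A ∧ f x = a) ∨ (x ∉ A ∧ f x = b) := h2
  apply propext
  show f x = a ↔ x ∈ A
  rcases h3 with ⟨h3, h4⟩ | ⟨h3, h4⟩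
  · exact ⟨fun _ => h3, fun _ => h4⟩
  · constructor
    · intro h5
      exact absurd (h5.symm.trans h4) hab
    · intro h5
      exact absurd h5 h3

theorem iso_singleton (y : Bs) : Iso {y} := ⟨y, univ, isOpen_univ, inter_univ _⟩

theorem tfae_unif : List.TFAE [PB,
    Unif fun S => ∃ y, S = {y},
    Unif TwoSets,
    Unif fun S => IsClosed S ∧ S.Nonempty,
    Unif fun S => IsGδ S ∧ S.Nonempty,
    Unif Iso,
    Unif fun S => ¬ IsMeagre S,
    Unif Fat] := by
  tfae_have 1 → 8 := unif_fat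
  tfae_have 8 → 7 := Unif.mono fun _ => fat_of_nonmeager
  tfae_have 8 → 6 := Unif.mono fun _ => fat_of_iso
  tfae_have 8 → 5 := Unif.mono fun _ h => fat_of_gdelta h.1 h.2
  tfae_have 5 → 4 := Unif.mono fun _ h => ⟨h.1.isGδ, h.2⟩
  tfae_have 4 → 3 := Unif.mono fun _ h => ⟨(twoSets_clopen h).1.1, (twoSets_clopen h).2⟩
  tfae_have 6 → 2 := Unif.mono fun _ ⟨y, h⟩ => by rw [h]; exact iso_singleton y
  tfae_have 7 → 3 := Unif.mono fun _ h =>
    nonmeager_of_open (twoSets_clopen h).1.2 (twoSets_clopen h).2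
  tfae_have 3 → 1 := pb_of_two
  tfae_have 2 → 1 := pb_of_single
  tfae_finish

/-- if all projective sets have the Baire property: a projective relation is uniformized by a Borel
function up to a meager set iff it contains countably many projective relations such that, for
comeager many points of its domain, the section of at least one of them is fat -/
theorem unif_iff (h : PB) {R : Set (Bs × Bs)} (hR : Proj (Bs × Bs) R) :
    (∃ f : Bs → Bs, Measurable f ∧ ∀ᶠ x in residual Bs, x ∈ Prod.fst '' R → (x, f x) ∈ R) ↔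
    ∃ Q : ℕ → Set (Bs × Bs), (∀ n, Proj (Bs × Bs) (Q n)) ∧ (∀ n, Q n ⊆ R) ∧
      ∀ᶠ x in residual Bs, x ∈ Prod.fst '' R → ∃ n, Fat (sec (Q n) x) := by
  constructor
  · rintro ⟨f, hf, hfR⟩
    refine ⟨fun _ => {p | p.2 = f p.1} ∩ R, fun _ => ?_, fun _ => inter_subset_right, ?_⟩
    · refine Proj.inter (Proj.of_measurable ?_) hR
      exact measurableSet_eq_fun measurable_snd (hf.comp measurable_fst)
    · filter_upwards [hfR] with x hx hxR
      refine ⟨0, ?_⟩
      have h1 : sec ({p : Bs × Bs | p.2 = f p.1} ∩ R) x = {f x} := by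
        ext y
        constructor
        · rintro ⟨h2, _⟩
          exact h2
        · intro h2
          have h3 : y = f x := h2
          subst h3
          exact ⟨rfl, hx hxR⟩
      rw [h1]
      exact fat_of_closed isClosed_singleton (singleton_nonempty _)
  · rintro ⟨Q, hQ, hQR, hQF⟩
    obtain ⟨f, hf, hfQ⟩ := unif_fat h Q hQ
    refine ⟨f, hf, ?_⟩
    filter_upwards [hQF, hfQ] with x hx1 hx2 hxR
    obtain ⟨n, hn⟩ := mem_iUnion.1 (hx2 (hx1 hxR))
    exact hQR n hn

end Pool.Agent.Helper91.PU
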