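import Pool.Agent.Helper91.PU.Cat

/-!
A continuous open retraction onto a closed subset of the Baire space, uniformly in a code of the
tree of the closed set.
-/

set_option autoImplicit false

namespace Pool.Agent.Helper91.PU

open Set Filter Topology PiNat

open Classical in
/-- the child of the node `s` of the tree `T` for the wanted value `k` -/
noncomputable def child (T : Set (List ℕ)) (s : List ℕ) (k : ℕ) : ℕ :=
  if (k :: s) ∈ T then k else sInf {j | (j :: s) ∈ T}

/-- the node of level `n` reached by following `y` -/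
noncomputable def seg (T : Set (List ℕ)) (y : Bs) : ℕ → List ℕ
  | 0 => []
  | n + 1 => child T (seg T y n) (y n) :: seg T y n

/-- the branch reached by following `y` -/
noncomputable def phi (T : Set (List ℕ)) (y : Bs) : Bs := fun n => child T (seg T y n) (y n)

/-- the tree of a set -/
def tree (S : Set Bs) : Set (List ℕ) := {s | ∃ z ∈ S, s = res z s.length}

theorem res_phi (T : Set (List ℕ)) (y : Bs) (n : ℕ) : res (phi T y) n = seg T y n := by
  induction n with
  | zero => rfl
  | succ n ih => rw [res_succ, ih]; rfl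

theorem seg_congr {T : Set (List ℕ)} {y z : Bs} {n : ℕ} (h : ∀ i < n, y i = z i) :
    seg T y n = seg T z n := by
  induction n with
  | zero => rfl
  | succ n ih =>
    have h1 := ih fun i hi => h i (by omega)
    show child T (seg T y n) (y n) :: seg T y n = child T (seg T z n) (z n) :: seg T z n
    rw [h1, h n (by omega)]

theorem res_mem_tree {S : Set Bs} {z : Bs} (hz : z ∈ S) (n : ℕ) : res z n ∈ tree S :=
  ⟨z, hz, by rw [res_length]⟩

theorem mem_tree {S : Set Bs} {y : Bs} {n : ℕ} (h : res y n ∈ tree S) :
    ∃ z ∈ S, ∀ i < n, z i = y i := by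
  obtain ⟨z, hz, h1⟩ := h
  rw [res_length] at h1
  exact ⟨z, hz, fun i hi => (res_eq_res.1 h1 hi).symm⟩

theorem mem_closure_iff_res {S : Set Bs} {y : Bs} : y ∈ closure S ↔ ∀ n, res y n ∈ tree S := by
  constructor
  · intro h n
    obtain ⟨z, hz1, hz2⟩ := mem_closure_iff.1 h _ (isOpen_cylinder (fun _ => ℕ) y n)
      (self_mem_cylinder y n)
    have h1 : res y n = res z n := by
      rw [res_eq_res]
      intro i hi
      exact (mem_cylinder_iff.1 hz1 i hi).symm
    rw [h1]
    exact res_mem_tree hz2 n
  · intro h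
    rw [mem_closure_iff]
    intro U hU hyU
    obtain ⟨V, ⟨x, n, rfl⟩, hyV, hVU⟩ :=
      (isTopologicalBasis_cylinders (fun _ : ℕ => ℕ)).exists_subset_of_mem_open hyU hU
    obtain ⟨z, hz, h1⟩ := mem_tree (h n)
    refine ⟨z, hVU ?_, hz⟩
    rw [mem_cylinder_iff] at hyV ⊢
    intro i hi
    rw [h1 i hi, hyV i hi]

theorem child_mem {S : Set Bs} {s : List ℕ} (hs : s ∈ tree S) (k : ℕ) :
    (child (tree S) s k :: s) ∈ tree S := by
  unfold child
  split_ifs with h
  · exact h
  · obtain ⟨z, hz, h1⟩ := hs
    have h2 : (z s.length :: s) ∈ tree S := by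
      have := res_mem_tree hz (s.length + 1)
      rw [res_succ, ← h1] at this
      exact this
    have h3 : sInf {j | (j :: s) ∈ tree S} ∈ {j | (j :: s) ∈ tree S} := Nat.sInf_mem ⟨_, h2⟩
    exact h3

theorem seg_mem {S : Set Bs} (hS : S.Nonempty) (y : Bs) (n : ℕ) :
    seg (tree S) y n ∈ tree S := by
  induction n with
  | zero =>
    obtain ⟨z, hz⟩ := hS
    exact res_mem_tree hz 0
  | succ n ih => exact child_mem ih (y n)

theorem phi_mem {S : Set Bs} (hS : S.Nonempty) (y : Bs) : phi (tree S) y ∈ closure S := by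
  rw [mem_closure_iff_res]
  intro n
  rw [res_phi]
  exact seg_mem hS y n

theorem seg_of_mem {S : Set Bs} {z y : Bs} (hz : z ∈ closure S) {n m : ℕ} (hnm : n ≤ m)
    (h0 : seg (tree S) y n = res z n) (hy : ∀ i, n ≤ i → i < m → y i = z i) :
    seg (tree S) y m = res z m := by
  induction m, hnm using Nat.le_induction with
  | base => exact h0
  | succ m hm ih =>
    have h1 := ih fun i hi hi' => hy i hi (by omega)
    have h2 : y m = z m := hy m hm (by omega)
    have h3 : (z m :: res z m) ∈ tree S := by
      rw [← res_succ]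
      exact mem_closure_iff_res.1 hz (m + 1)
    show child (tree S) (seg (tree S) y m) (y m) :: seg (tree S) y m = _
    rw [h1, h2, res_succ]
    unfold child
    rw [if_pos h3]

theorem phi_splice {S : Set Bs} {z y : Bs} (hz : z ∈ closure S) {n : ℕ}
    (h0 : seg (tree S) y n = res z n) (hy : ∀ i, n ≤ i → y i = z i) : phi (tree S) y = z := by
  apply res_injective
  funext m
  rw [res_phi]
  rcases le_total n m with h | h
  · exact seg_of_mem hz h h0 fun i hi _ => hy i hi
  · have h1 : ∀ i < n, phi (tree S) y i = z i := by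
      rw [← res_phi] at h0
      exact fun i hi => res_eq_res.1 h0 hi
    rw [← res_phi, res_eq_res]
    exact fun i hi => h1 i (by omega)

theorem phi_self {S : Set Bs} {z : Bs} (hz : z ∈ closure S) : phi (tree S) z = z :=
  phi_splice hz (n := 0) rfl fun _ _ => rfl

theorem phi_continuous (T : Set (List ℕ)) : Continuous (phi T) := by
  refine continuous_pi fun n => ?_
  apply IsLocallyConstant.continuous
  rw [IsLocallyConstant.iff_eventually_eq]
  intro x
  filter_upwards [(isOpen_cylinder (fun _ => ℕ) x (n + 1)).mem_nhds (self_mem_cylinder x (n + 1))]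
    with y hy
  have hy' : ∀ i < n + 1, y i = x i := mem_cylinder_iff.1 hy
  show child T (seg T y n) (y n) = child T (seg T x n) (x n)
  rw [seg_congr fun i hi => hy' i (by omega), hy' n (by omega)]

/-- the retraction as a map onto the closure -/
noncomputable def phc {S : Set Bs} (hS : S.Nonempty) (y : Bs) : closure S :=
  ⟨phi (tree S) y, phi_mem hS y⟩

theorem phc_continuous {S : Set Bs} (hS : S.Nonempty) : Continuous (phc hS) :=
  (phi_continuous _).subtype_mk _

theorem phc_surjective {S : Set Bs} (hS : S.Nonempty) : Function.Surjective (phc hS) :=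
  fun z => ⟨z, Subtype.ext (phi_self z.2)⟩

theorem phc_open {S : Set Bs} (hS : S.Nonempty) : IsOpenMap (phc hS) := by
  intro U hU
  rw [isOpen_iff_mem_nhds]
  rintro _ ⟨y₀, hy₀, rfl⟩
  obtain ⟨V, ⟨x, n, rfl⟩, hyV, hVU⟩ :=
    (isTopologicalBasis_cylinders (fun _ : ℕ => ℕ)).exists_subset_of_mem_open hy₀ hU
  have h1 : IsOpen ((↑) ⁻¹' cylinder (phi (tree S) y₀) n : Set (closure S)) :=
    (isOpen_cylinder (fun _ => ℕ) _ n).preimage continuous_subtype_val
  have h2 : phc hS y₀ ∈ ((↑) ⁻¹' cylinder (phi (tree S) y₀) n : Set (closure S)) :=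
    self_mem_cylinder _ n
  filter_upwards [h1.mem_nhds h2] with z hz
  have hz' : ∀ i < n, (z : Bs) i = phi (tree S) y₀ i := mem_cylinder_iff.1 hz
  refine ⟨fun i => if i < n then y₀ i else (z : Bs) i, hVU ?_, ?_⟩
  · rw [mem_cylinder_iff] at hyV ⊢
    intro i hi
    simp only [if_pos hi]
    exact hyV i hi
  · apply Subtype.ext
    refine phi_splice z.2 (n := n) ?_ fun i hi => ?_
    · have e : seg (tree S) (fun i => if i < n then y₀ i else (z : Bs) i) n
          = seg (tree S) y₀ n := seg_congr fun i hi => by simp only [if_pos hi]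
      rw [e, ← res_phi, res_eq_res]
      exact fun i hi => (hz' i hi).symm
    · simp only [if_neg (not_lt.2 hi)]

theorem Fat.nonempty {S : Set Bs} (h : Fat S) : S.Nonempty := by
  by_contra hem
  rw [not_nonempty_iff_eq_empty] at hem
  subst hem
  apply h
  rw [preimage_empty]
  exact IsMeagre.empty

/-- the preimage of a fat set under the retraction is not meager -/
theorem fat_preimage {S : Set Bs} (h : Fat S) : ¬ IsMeagre (phi (tree S) ⁻¹' S) := by
  intro hm
  apply h
  have h1 := open_fibres (phc_continuous h.nonempty) (phc_open h.nonempty)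
    (phc_surjective h.nonempty) hm
  have h2 : {z : closure S | (z : Bs) ∉ S} ∈ residual (closure S) := by
    filter_upwards [h1] with z hz
    obtain ⟨y, hy, rfl⟩ := hz
    exact hy
  exact h2

end Pool.Agent.Helper91.PU
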