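import Pool.Agent.Helper91.PU.Phi
import Pool.Agent.Helper91.PU.Clos

/-!
Uniformization up to meager sets of relations with fat sections.
-/

set_option autoImplicit false

namespace Pool.Agent.Helper91.PU

open Set Filter Topology PiNat

/-- a homeomorphism between the Baire space and its square -/
noncomputable def homBs : Bs ≃ₜ Bs × Bs :=
  (Homeomorph.piCongrLeft (Y := fun _ : ℕ => ℕ) Equiv.natSumNatEquivNat).symm.trans
    Homeomorph.sumArrowHomeomorphProdArrow

theorem pb2 (h : PB) {A : Set (Bs × Bs)} (hA : Proj (Bs × Bs) A) : BaireMeasurableSet A := by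
  have h1 : BaireMeasurableSet (homBs ⁻¹' A) := h _ (hA.preimage' homBs.continuous.measurable)
  have h2 := h1.preimage homBs.symm.continuous homBs.symm.isOpenMap
  have e : homBs.symm ⁻¹' (homBs ⁻¹' A) = A := by
    ext x
    simp
  rwa [e] at h2

theorem child_measurable {U : List ℕ → Set Bs} (hU : ∀ s, MeasurableSet (U s)) (s : List ℕ)
    (n : ℕ) : Measurable fun p : Bs × Bs => child {s | p.1 ∈ U s} s (p.2 n) := by
  have hn : Measurable fun p : Bs × Bs => p.2 n := (measurable_pi_apply n).comp measurable_snd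
  unfold child
  refine Measurable.ite ?_ hn ?_
  · have e : {p : Bs × Bs | (p.2 n :: s) ∈ {s | p.1 ∈ U s}} =
        ⋃ k, ({p : Bs × Bs | p.2 n = k} ∩ {p : Bs × Bs | p.1 ∈ U (k :: s)}) := by
      ext p
      simp
    rw [e]
    refine MeasurableSet.iUnion fun k => MeasurableSet.inter ?_ ?_
    · exact hn (measurableSet_singleton k)
    · exact measurable_fst (hU (k :: s))
  · exact measurable_sInf_nat (B := fun j => {p : Bs × Bs | p.1 ∈ U (j :: s)})
      fun j => measurable_fst (hU (j :: s))

theorem seg_measurable {U : List ℕ → Set Bs} (hU : ∀ s, MeasurableSet (U s)) (n : ℕ) :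
    @Measurable _ _ _ ⊤ fun p : Bs × Bs => seg {s | p.1 ∈ U s} p.2 n := by
  letI : MeasurableSpace (List ℕ) := ⊤
  haveI : MeasurableSingletonClass (List ℕ) := ⟨fun _ => trivial⟩
  induction n with
  | zero => exact measurable_const
  | succ n ih =>
    have h1 : Measurable fun p : (Bs × Bs) × List ℕ =>
        (child {s | p.1.1 ∈ U s} p.2 (p.1.2 n) :: p.2) := by
      apply measurable_from_prod_countable_left
      intro s
      exact (measurable_from_top (f := fun k : ℕ => k :: s)).comp (child_measurable hU s n)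
    exact h1.comp (measurable_id.prodMk ih)

theorem phi_measurable {U : List ℕ → Set Bs} (hU : ∀ s, MeasurableSet (U s)) :
    Measurable fun p : Bs × Bs => phi {s | p.1 ∈ U s} p.2 := by
  rw [measurable_pi_iff]
  intro n
  letI : MeasurableSpace (List ℕ) := ⊤
  haveI : MeasurableSingletonClass (List ℕ) := ⟨fun _ => trivial⟩
  have h1 : Measurable fun p : (Bs × Bs) × List ℕ =>
      child {s | p.1.1 ∈ U s} p.2 (p.1.2 n) := by
    apply measurable_from_prod_countable_left
    intro s
    exact child_measurable hU s n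
  exact h1.comp (measurable_id.prodMk (seg_measurable hU n))

/-- one relation -/
theorem unif_one (hPB : PB) {R : Set (Bs × Bs)} (hR : Proj (Bs × Bs) R) :
    ∃ f : Bs → Bs, Measurable f ∧ ∀ᶠ x in residual Bs, Fat (sec R x) → (x, f x) ∈ R := by
  have hD : ∀ s : List ℕ, Proj Bs {x | s ∈ tree (sec R x)} := by
    intro s
    have h1 : {x | s ∈ tree (sec R x)} =
        Prod.fst '' (R ∩ {p : Bs × Bs | s = res p.2 s.length}) := by
      ext x
      constructor
      · rintro ⟨z, hz, h⟩
        exact ⟨(x, z), ⟨hz, h⟩, rfl⟩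
      · rintro ⟨⟨x', z⟩, ⟨hz, h⟩, rfl⟩
        exact ⟨z, hz, h⟩
    rw [h1]
    refine Proj.proj (hR.inter (Proj.of_measurable ?_))
    have h2 : IsOpen {p : Bs × Bs | s = res p.2 s.length} := by
      have h3 : IsOpen {z : Bs | s = res z s.length} := by
        rw [isOpen_iff_mem_nhds]
        intro z hz
        filter_upwards [(isOpen_cylinder (fun _ => ℕ) z s.length).mem_nhds
          (self_mem_cylinder z s.length)] with y hy
        have h4 : res z s.length = res y s.length := by
          rw [res_eq_res]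
          intro i hi
          exact (mem_cylinder_iff.1 hy i hi).symm
        show s = res y s.length
        rw [← h4]
        exact hz
      exact h3.preimage continuous_snd
    exact h2.measurableSet
  choose U hUo hU using fun s => (hPB _ (hD s)).residualEq_isOpen
  have hUm : ∀ s, MeasurableSet (U s) := fun s => (hUo s).measurableSet
  have hT : ∀ᶠ x in residual Bs, {s | x ∈ U s} = tree (sec R x) := by
    have h1 : ∀ᶠ x in residual Bs, ∀ s, (x ∈ {x | s ∈ tree (sec R x)}) = (x ∈ U s) := by
      rw [eventually_countable_forall]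
      exact fun s => hU s
    filter_upwards [h1] with x hx
    ext s
    exact (iff_of_eq (hx s)).symm
  have hh := phi_measurable hUm
  have hR' : Proj (Bs × Bs) ((fun p : Bs × Bs => (p.1, phi {s | p.1 ∈ U s} p.2)) ⁻¹' R) :=
    hR.preimage' (measurable_fst.prodMk hh)
  obtain ⟨g, hg, hgR⟩ := selector_nonmeager (pb2 hPB hR')
  refine ⟨fun x => phi {s | x ∈ U s} (g x), hh.comp (measurable_id.prodMk hg), ?_⟩
  filter_upwards [hT, hgR] with x hx1 hx2 hfat
  apply hx2
  have h3 : sec ((fun p : Bs × Bs => (p.1, phi {s | p.1 ∈ U s} p.2)) ⁻¹' R) x =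
      phi (tree (sec R x)) ⁻¹' (sec R x) := by
    ext y
    show (x, phi {s | x ∈ U s} y) ∈ R ↔ (x, phi (tree (sec R x)) y) ∈ R
    rw [hx1]
  rw [h3]
  exact fat_preimage hfat

/-- countably many relations -/
theorem unif_seq (hPB : PB) {R : ℕ → Set (Bs × Bs)} (hR : ∀ n, Proj (Bs × Bs) (R n)) :
    ∃ f : Bs → Bs, Measurable f ∧
      ∀ᶠ x in residual Bs, (∃ n, Fat (sec (R n) x)) → (x, f x) ∈ ⋃ n, R n := by
  choose f hf hfR using fun n => unif_one hPB (hR n)
  have hE : ∀ n, Proj Bs ((fun x => (x, f n x)) ⁻¹' R n) := fun n =>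
    (hR n).preimage' (measurable_id.prodMk (hf n))
  choose V hVo hV using fun n => (hPB _ (hE n)).residualEq_isOpen
  have hN : Measurable fun x => sInf {n | x ∈ V n} :=
    measurable_sInf_nat fun n => (hVo n).measurableSet
  refine ⟨fun x => f (sInf {n | x ∈ V n}) x, ?_, ?_⟩
  · have h1 : Measurable fun p : Bs × ℕ => f p.2 p.1 := by
      apply measurable_from_prod_countable_left
      intro n
      exact hf n
    exact h1.comp (measurable_id.prodMk hN)
  · have h1 : ∀ᶠ x in residual Bs, ∀ n, (x ∈ (fun x => (x, f n x)) ⁻¹' R n) = (x ∈ V n) := by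
      rw [eventually_countable_forall]
      exact fun n => hV n
    have h2 : ∀ᶠ x in residual Bs, ∀ n, Fat (sec (R n) x) → (x, f n x) ∈ R n := by
      rw [eventually_countable_forall]
      exact hfR
    filter_upwards [h1, h2] with x hx1 hx2
    rintro ⟨n, hn⟩
    have h3 : x ∈ V n := (iff_of_eq (hx1 n)).1 (hx2 n hn)
    have h4 : sInf {n | x ∈ V n} ∈ {n | x ∈ V n} := Nat.sInf_mem ⟨n, h3⟩
    have h5 := (iff_of_eq (hx1 _)).2 h4
    exact mem_iUnion.2 ⟨_, h5⟩

theorem fat_of_gdelta {S : Set Bs} (h : IsGδ S) (hne : S.Nonempty) : Fat S := by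
  intro hm
  obtain ⟨z, hz⟩ := hne
  haveI : PolishSpace (closure S) := isClosed_closure.polishSpace
  haveI : Nonempty (closure S) := ⟨⟨z, subset_closure hz⟩⟩
  have h1 : IsGδ ((↑) ⁻¹' S : Set (closure S)) := h.preimage continuous_subtype_val
  have h2 : Dense ((↑) ⁻¹' S : Set (closure S)) := by
    rw [Subtype.dense_iff]
    intro w hw
    rw [Subtype.image_preimage_coe, inter_eq_self_of_subset_right subset_closure]
    exact hw
  have h3 : ((↑) ⁻¹' S : Set (closure S)) ∈ residual (closure S) :=
    residual_of_dense_Gδ h1 h2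
  have h4 : (∅ : Set (closure S)) ∈ residual (closure S) := by
    have := inter_mem h3 hm
    rwa [inter_compl_self] at this
  exact (dense_of_mem_residual h4).nonempty.ne_empty rfl

theorem fat_of_closed {S : Set Bs} (h : IsClosed S) (hne : S.Nonempty) : Fat S :=
  fat_of_gdelta h.isGδ hne

theorem fat_of_nonmeager {S : Set Bs} (h : ¬ IsMeagre S) : Fat S := by
  intro hm
  apply h
  have h1 := hm.image_val
  rw [Subtype.image_preimage_coe, inter_eq_self_of_subset_right subset_closure] at h1
  exact h1

end Pool.Agent.Helper91.PU
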